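import Pool.Agent.Y169.CH.Top

/-!
Explicit lower bounds for the plurigenera of quotients of products of hypersurfaces.
-/

set_option autoImplicit false
set_option linter.overlappingInstances false
set_option linter.unusedSectionVars false
set_option maxHeartbeats 1000000

open FF MvPolynomial Pool.Agent.W603.LV Pool.Agent.W602.GT Pool.Agent.W602.Cov
open Pool.Agent.TH756.PR Pool.Agent.TH122.AB Pool.Agent.TH756.PN Pool.Agent.Y169.CH

namespace Pool.Agent.H172.EI

section arith

variable {r R : ℕ}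

/-- the numerical estimate -/
theorem arith_eff {M : Fin R → ℕ} (hM : ∀ j, 0 < M j) (a : Fin R → Fin r → ℕ) (n dF : Fin r → ℕ)
    (hd : ∀ i, 1 ≤ dF i)
    (hpos : ∀ v, Adm M a v → 1 ≤ ∑ i, (((dF i : ℚ) - n i - 1) / dF i) * v i)
    (I : Finset (Fin r)) (hI : ∀ i ∈ I, ∀ v, Adm M a v →
      ∑ s, (((dF s : ℚ) - n s - 1) / dF s) * v s = 1 → v i = 0) {D j k : ℕ} (hD0 : 1 ≤ D)
    {q : Fin r → ℕ} (hq : ∀ i, D * (n i + 1) = dF i * q i) (hk : k * (D + 1) ≤ j) :
    ∀ v, Adm M a v → ((j * D : ℕ) : ℤ) + k * ∑ i ∈ I, (v i : ℤ) ≤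
      ∑ i, (((j * D : ℕ) : ℤ) - ((j * q i : ℕ) : ℤ)) * v i := by
  classical
  have hdq : ∀ i, (0 : ℚ) < dF i := fun i => by exact_mod_cast hd i
  have hDq : (0 : ℚ) < D := by exact_mod_cast hD0
  obtain ⟨β, hβ⟩ : ∃ β : Fin r → ℤ, β = fun i => (D : ℤ) - q i := ⟨_, rfl⟩
  have hαβ : ∀ i, ((dF i : ℚ) - n i - 1) / dF i = (β i : ℚ) / D := by
    intro i
    rw [hβ, div_eq_div_iff (hdq i).ne' hDq.ne']
    have h1 : (D : ℚ) * (n i + 1) = dF i * q i := by exact_mod_cast hq i
    push_cast
    linear_combination (-1 : ℚ) * h1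
  have hsum : ∀ v : Fin r → ℕ, ∑ i, (((dF i : ℚ) - n i - 1) / dF i) * v i =
      ((∑ i, β i * v i : ℤ) : ℚ) / D := by
    intro v
    push_cast
    rw [Finset.sum_div]
    refine Finset.sum_congr rfl fun i _ => ?_
    rw [hαβ]
    ring
  have hβ1 : ∀ i, 1 ≤ β i := by
    intro i
    have h1 := hpos _ (adm_single hM a i)
    rw [hsum, Finset.sum_eq_single i, Pi.single_eq_same, le_div_iff₀ hDq] at h1
    · by_contra hcon
      have h2 : β i ≤ 0 := by omega
      have h3 : β i * ((∏ j, M j : ℕ) : ℤ) ≤ 0 := mul_nonpos_of_nonpos_of_nonneg h2 (by positivity)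
      have h4 : ((β i * ((∏ j, M j : ℕ) : ℤ) : ℤ) : ℚ) ≤ 0 := by exact_mod_cast h3
      have h5 : (D : ℚ) ≤ 0 := by
        calc (D : ℚ) = 1 * D := (one_mul _).symm
          _ ≤ _ := h1
          _ ≤ 0 := h4
      linarith
    · intro s _ hs
      rw [Pi.single_eq_of_ne hs]
      simp
    · intro h
      exact absurd (Finset.mem_univ _) h
  intro v hv
  obtain ⟨B, hB⟩ : ∃ B : ℤ, B = ∑ i, β i * v i := ⟨_, rfl⟩
  have hsumE : ∑ i, (((j * D : ℕ) : ℤ) - ((j * q i : ℕ) : ℤ)) * v i = j * B := by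
    rw [hB, Finset.mul_sum]
    refine Finset.sum_congr rfl fun i _ => ?_
    rw [hβ]
    push_cast
    ring
  rw [hsumE]
  have hBD : (D : ℤ) ≤ B := by
    have h1 := hpos v hv
    rw [hsum, ← hB, le_div_iff₀ hDq, one_mul] at h1
    exact_mod_cast h1
  have hvB : ∑ i, (v i : ℤ) ≤ B := by
    rw [hB]
    refine Finset.sum_le_sum fun i _ => ?_
    have h1 := hβ1 i
    nlinarith [Int.natCast_nonneg (v i)]
  have hIB : ∑ i ∈ I, (v i : ℤ) ≤ ∑ i, (v i : ℤ) :=
    Finset.sum_le_univ_sum_of_nonneg fun i => by positivity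
  have hD1 : (1 : ℤ) ≤ D := by exact_mod_cast hD0
  have hj : (k : ℤ) * (D + 1) ≤ j := by exact_mod_cast hk
  have hk0 : (0 : ℤ) ≤ k := Int.natCast_nonneg k
  have hj0 : (0 : ℤ) ≤ j := Int.natCast_nonneg j
  by_cases hex : ∃ i ∈ I, v i ≠ 0
  · obtain ⟨i, hi, hvi⟩ := hex
    have hB1 : (D : ℤ) + 1 ≤ B := by
      have h1 : B ≠ D := by
        intro h
        apply hvi
        refine hI i hi v hv ?_
        rw [hsum, ← hB, h]
        exact div_self (by exact_mod_cast hDq.ne')
      omega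
    push_cast
    have h1 : (k : ℤ) * ∑ i ∈ I, (v i : ℤ) ≤ k * B :=
      mul_le_mul_of_nonneg_left (hIB.trans hvB) hk0
    have h2 : (k : ℤ) * (D + 1) * (B - D) ≤ j * (B - D) :=
      mul_le_mul_of_nonneg_right hj (by linarith)
    have h3 : (k : ℤ) * B ≤ k * ((D + 1) * (B - D)) := by
      refine mul_le_mul_of_nonneg_left ?_ hk0
      nlinarith
    nlinarith
  · push Not at hex
    rw [Finset.sum_eq_zero fun i hi => by rw [hex i hi]; rfl]
    push_cast
    nlinarith

end arith

section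

variable {K : Type} [Field K] [Algebra ℂ K]

theorem ge_mprod {ι : Type} (P : Place ℂ K) (f : ι → K) (c : ℤ) (h : ∀ j, Ge P c (f j))
    (s : Multiset ι) : Ge P (s.card * c) (s.map f).prod := by
  induction s using Multiset.induction_on with
  | empty =>
    right
    simp [P.ord_one]
  | cons a s ih =>
    rw [Multiset.map_cons, Multiset.prod_cons, Multiset.card_cons]
    refine ((h a).mul ih).mono (le_of_eq ?_)
    push_cast
    ring

variable {r N R : ℕ} {n : Fin r → ℕ}
  (e : ((i : Fin r) × Fin (n i)) ≃ Fin N)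

/-- the coefficient functions -/
noncomputable def cf (x : ∀ i, Fin (n i + 1) → K) (L : Fin r → K) (I : Finset (Fin r)) {k : ℕ}
    (s : ∀ i : {i // i ∈ I}, Sym (Fin (n i + 1)) k) : K :=
  ∏ i : {i // i ∈ I}, ((s i : Multiset (Fin (n i + 1))).map fun l => x i l / L i).prod

/-- the pluricanonical forms -/
theorem pm_pos (hn : ∀ i, 1 ≤ n i) {x : ∀ i, Fin (n i + 1) → K} (hx : ∀ i j, x i j ≠ 0)
    (hbas : IsTranscendenceBasis ℂ (uu e x)) {F : ∀ i, MvPolynomial (Fin (n i + 1)) ℂ}
    {dF : Fin r → ℕ} (hdF : ∀ i, 1 ≤ dF i) (hs : ∀ i, SmF (F i))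
    (hh : ∀ i, (F i).IsHomogeneous (dF i)) (hFx : ∀ i, aeval (x i) (F i) ≠ 0) {z : Fin R → K}
    {M : Fin R → ℕ} (hM : ∀ j, 0 < M j) {a : Fin R → Fin r → ℕ} (hz0 : ∀ j, z j ≠ 0)
    (hz : ∀ j, z j ^ M j = ∏ i, (aeval (x i) (F i) / x i 0 ^ dF i) ^ a j i)
    (hdiv : ∀ j i, M j ∣ a j i * dF i)
    {T : ℕ} {E : Fin r → ℕ} (hE : ∀ i, E i * dF i = T * (n i + 1)) (I : Finset (Fin r)) {k : ℕ}
    (hkey : ∀ v, Adm M a v → (T : ℤ) + k * ∑ i ∈ I, (v i : ℤ) ≤ ∑ i, ((T : ℤ) - E i) * v i) :
    ∃ c : K, c ≠ 0 ∧ ∀ s : ∀ i : {i // i ∈ I}, Sym (Fin (n i + 1)) k,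
      IsPluri T (fun D : Fin N → Derivation ℂ K K => om e D x ^ T * c *
        cf x (fun i => aeval (x i) (F i) / x i 0 ^ (dF i - 1)) I s) ∧
      ∀ P : Place ℂ K, ∀ D : Fin N → Derivation ℂ K K, (∀ c, DerReg P (D c)) →
        P.Reg (om e D x ^ T * c *
          cf x (fun i => aeval (x i) (F i) / x i 0 ^ (dF i - 1)) I s) := by
  classical
  let den : K := ∏ i, aeval (x i) (F i) ^ E i
  have hden : den ≠ 0 := Finset.prod_ne_zero_iff.2 fun i _ => pow_ne_zero _ (hFx i)
  obtain ⟨L, hL⟩ : ∃ L : Fin r → K, L = fun i => aeval (x i) (F i) / x i 0 ^ (dF i - 1) := ⟨_, rfl⟩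
  rw [← hL]
  have hLne : ∀ i, L i ≠ 0 := fun i => by
    rw [hL]
    exact div_ne_zero (hFx i) (pow_ne_zero _ (hx i 0))
  refine ⟨den⁻¹, inv_ne_zero hden, fun s => ⟨?_, fun P D hD => ?_⟩⟩
  · intro A D
    dsimp only
    rw [om_lin, mul_pow]
    ring
  · -- the multiplicities
    have hmin : ∀ i, ∃ j : Fin (n i + 1), ∀ l, P.ord (x i j) ≤ P.ord (x i l) := by
      intro i
      obtain ⟨j, -, hj⟩ := Finset.exists_min_image Finset.univ (fun l => P.ord (x i l))
        ⟨(0 : Fin (n i + 1)), Finset.mem_univ _⟩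
      exact ⟨j, fun l => hj l (Finset.mem_univ l)⟩
    choose j hj using hmin
    obtain ⟨α, hα⟩ : ∃ α : Fin r → ℤ, α = fun i => P.ord (x i (j i)) := ⟨_, rfl⟩
    have hα1 : ∀ i l, α i ≤ P.ord (x i l) := fun i l => by
      rw [hα]
      exact hj i l
    have hv : ∀ i, ∃ v : ℕ, P.ord (aeval (x i) (F i)) = dF i * α i + v := by
      intro i
      have h1 : aeval (x i) (F i) = x i (j i) ^ dF i *
          aeval (fun l => x i l / x i (j i)) (F i) := by
        rw [← aeval_smul_form (hh i)]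
        congr 2
        funext l
        rw [mul_div_cancel₀ _ (hx i _)]
      have h2 : aeval (fun l => x i l / x i (j i)) (F i) ≠ 0 := by
        intro h0
        rw [h0, mul_zero] at h1
        exact hFx i h1
      have h3 : P.Reg (aeval (fun l => x i l / x i (j i)) (F i)) := by
        refine reg_aeval (fun l => Or.inr ?_) _
        rw [P.ord_div (hx i l) (hx i _)]
        linarith [hj i l]
      have h4 := h3.resolve_left h2
      refine ⟨(P.ord (aeval (fun l => x i l / x i (j i)) (F i))).toNat, ?_⟩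
      rw [Int.toNat_of_nonneg h4, h1, P.ord_mul (pow_ne_zero _ (hx i _)) h2, P.ord_pow, hα]
    choose v hv using hv
    have hom := om_ord e hn P D hD hx hbas hs hh hFx α hα1 j (fun i => by rw [hα]) v hv
    -- the divisibility
    have hT' : ∀ j, M j ∣ ∑ i, a j i * v i := by
      intro c
      have h1 := congrArg P.ord (hz c)
      rw [P.ord_pow, ord_prod' P Finset.univ _ fun i _ => pow_ne_zero _
        (div_ne_zero (hFx i) (pow_ne_zero _ (hx i 0)))] at h1
      have h2 : ∀ i, P.ord ((aeval (x i) (F i) / x i 0 ^ dF i) ^ a c i) =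
          (a c i * dF i : ℕ) * (α i - P.ord (x i 0)) + ((a c i * v i : ℕ) : ℤ) := by
        intro i
        rw [P.ord_pow, P.ord_div (hFx i) (pow_ne_zero _ (hx i 0)), P.ord_pow, hv]
        push_cast
        ring
      rw [Finset.sum_congr rfl fun i _ => h2 i, Finset.sum_add_distrib] at h1
      have h3 : (M c : ℤ) ∣ ∑ i, ((a c i * dF i : ℕ) : ℤ) * (α i - P.ord (x i 0)) :=
        Finset.dvd_sum fun i _ => Dvd.dvd.mul_right (by exact_mod_cast hdiv c i) _
      have h4 : (M c : ℤ) ∣ ∑ i, ((a c i * v i : ℕ) : ℤ) := by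
        have h5 : ∑ i, ((a c i * v i : ℕ) : ℤ) = M c * P.ord (z c) -
            ∑ i, ((a c i * dF i : ℕ) : ℤ) * (α i - P.ord (x i 0)) := by
          rw [h1]
          ring
        rw [h5]
        exact dvd_sub (dvd_mul_right _ _) h3
      exact_mod_cast h4
    -- the order
    have hge1 : Ge P (T * (∑ i, ((n i : ℤ) + 1) * α i + ∑ i, (v i : ℤ) -
        (if v = 0 then 0 else 1)) - ∑ i, (E i : ℤ) * (dF i * α i + v i)) (om e D x ^ T / den) := by
      have h1 := ge_div hden (hom.pow T)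
      refine h1.mono (le_of_eq ?_)
      simp only [den]
      rw [ord_prod' P Finset.univ _ fun i _ => pow_ne_zero _ (hFx i)]
      congr 1
      exact Finset.sum_congr rfl fun i _ => by rw [P.ord_pow, hv]
    have h1 : T * (∑ i, ((n i : ℤ) + 1) * α i) = ∑ i, (E i : ℤ) * (dF i * α i) := by
      rw [Finset.mul_sum]
      refine Finset.sum_congr rfl fun i _ => ?_
      have h2 : (E i : ℤ) * dF i = T * (n i + 1) := by exact_mod_cast hE i
      calc (T : ℤ) * (((n i : ℤ) + 1) * α i) = (T * (n i + 1)) * α i := by ring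
        _ = (E i * dF i) * α i := by rw [h2]
        _ = _ := by ring
    have h2 : ∑ i, (E i : ℤ) * (dF i * α i + v i) =
        ∑ i, (E i : ℤ) * (dF i * α i) + ∑ i, (E i : ℤ) * v i := by
      rw [← Finset.sum_add_distrib]
      exact Finset.sum_congr rfl fun i _ => by ring
    have h3 : ∑ i, ((T : ℤ) - E i) * v i = T * ∑ i, (v i : ℤ) - ∑ i, (E i : ℤ) * v i := by
      rw [Finset.mul_sum, ← Finset.sum_sub_distrib]
      exact Finset.sum_congr rfl fun i _ => by ring
    have hge2 : Ge P (-(k * ∑ i ∈ I, (v i : ℤ))) (cf x L I s) := by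
      rw [Finset.mul_sum, ← Finset.sum_neg_distrib, ← Finset.sum_coe_sort I]
      refine Ge.prod Finset.univ _ _ fun i _ => ?_
      have h1 := ge_mprod P (fun l => x i l / L i) (-(v i : ℤ)) (fun l => ?_)
        (s i : Multiset (Fin (n i + 1)))
      · refine h1.mono (le_of_eq ?_)
        rw [Sym.card_coe]
        ring
      · right
        rw [P.ord_div (hx i _) (hLne i), hL]
        dsimp only
        rw [P.ord_div (hFx i) (pow_ne_zero _ (hx i 0)), P.ord_pow, hv]
        have h1 := hα1 i l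
        have h2 := hα1 i 0
        have h3 : ((dF i - 1 : ℕ) : ℤ) = dF i - 1 := by
          have := hdF i
          omega
        rw [h3]
        have h4 : (0 : ℤ) ≤ (dF i : ℤ) - 1 := by
          have := hdF i
          omega
        nlinarith
    change Ge P 0 (om e D x ^ T * den⁻¹ * cf x L I s)
    rw [← div_eq_mul_inv]
    refine (hge1.mul hge2).mono ?_
    rw [h2]
    by_cases hv0 : v = 0
    · rw [if_pos hv0, hv0]
      simp only [Pi.zero_apply, Nat.cast_zero, Finset.sum_const_zero, mul_zero, add_zero, sub_zero,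
        neg_zero]
      rw [h1, sub_self]
    · rw [if_neg hv0]
      have h4 := hkey v ⟨hv0, hT'⟩
      rw [h3] at h4
      have h5 : (T : ℤ) * (∑ i, ((n i : ℤ) + 1) * α i + ∑ i, (v i : ℤ) - 1) =
          ∑ i, (E i : ℤ) * (dF i * α i) + T * ∑ i, (v i : ℤ) - T := by
        rw [← h1]
        ring
      rw [h5]
      linarith

/-- the exponents of the monomials -/
noncomputable def mex (I : Finset (Fin r)) {k : ℕ}
    (s : ∀ i : {i // i ∈ I}, Sym (Fin (n i + 1)) k) : ((i : Fin r) × Fin (n i)) →₀ ℕ :=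
  Finsupp.equivFunOnFinite.symm fun b =>
    if h : b.1 ∈ I then (s ⟨b.1, h⟩ : Multiset (Fin (n b.1 + 1))).count b.2.succ else 0

theorem mex_inj (I : Finset (Fin r)) {k : ℕ} : Function.Injective
    (mex I (n := n) (k := k)) := by
  intro s t hst
  funext i
  apply Sym.coe_injective
  have h1 : ∀ l : Fin (n i), (s i : Multiset (Fin (n i + 1))).count l.succ =
      (t i : Multiset (Fin (n i + 1))).count l.succ := by
    intro l
    have h2 := DFunLike.congr_fun hst (⟨i.1, l⟩ : (i : Fin r) × Fin (n i))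
    simp only [mex, Finsupp.coe_equivFunOnFinite_symm, i.2, dite_true] at h2
    exact h2
  have hc : ∀ u : Sym (Fin (n i + 1)) k, (u : Multiset (Fin (n i + 1))).count 0 +
      ∑ l : Fin (n i), (u : Multiset (Fin (n i + 1))).count l.succ = k := by
    intro u
    rw [← Fin.sum_univ_succ fun l => (u : Multiset (Fin (n i + 1))).count l]
    rw [Multiset.sum_count_eq_card (fun a _ => Finset.mem_univ a), Sym.card_coe]
  ext l
  refine Fin.cases ?_ h1 l
  have h3 := hc (s i)
  have h4 := hc (t i)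
  rw [Finset.sum_congr rfl fun l _ => h1 l] at h3
  omega

theorem cf_eq {x : ∀ i, Fin (n i + 1) → K} (hx0 : ∀ i, x i 0 ≠ 0) {L : Fin r → K}
    (I : Finset (Fin r)) {k : ℕ}
    (s : ∀ i : {i // i ∈ I}, Sym (Fin (n i + 1)) k) :
    cf x L I s = (∏ i : {i // i ∈ I}, (x i 0 / L i) ^ k) *
      aeval (aff x) (monomial (mex I s) (1 : ℂ)) := by
  classical
  rw [aeval_monomial, map_one, one_mul, Finsupp.prod_fintype _ _ (fun _ => pow_zero _),
    Fintype.prod_sigma, ← Finset.prod_subset (Finset.subset_univ I), ← Finset.prod_coe_sort I,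
    ← Finset.prod_mul_distrib]
  · unfold cf
    refine Finset.prod_congr rfl fun i _ => ?_
    have h1 : ∀ t : Multiset (Fin (n i + 1)), (t.map fun l => x i l / L i).prod =
        (x i 0 / L i) ^ t.card * ∏ l : Fin (n i), aff x ⟨i.1, l⟩ ^ t.count l.succ := by
      intro t
      induction t using Multiset.induction_on with
      | empty => simp
      | cons b t ih =>
        rw [Multiset.map_cons, Multiset.prod_cons, ih, Multiset.card_cons, pow_succ]
        refine Fin.cases ?_ (fun l => ?_) b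
        · have h2 : ∀ l : Fin (n i), ((0 : Fin (n i + 1)) ::ₘ t).count l.succ = t.count l.succ :=
            fun l => Multiset.count_cons_of_ne (Fin.succ_ne_zero l) t
          simp only [h2]
          ring
        · rw [← Finset.mul_prod_erase Finset.univ _ (Finset.mem_univ l),
            ← Finset.mul_prod_erase Finset.univ
              (fun l' : Fin (n i) => aff x ⟨i.1, l'⟩ ^ (l.succ ::ₘ t).count l'.succ)
              (Finset.mem_univ l)]
          rw [Multiset.count_cons_self, pow_succ]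
          have h2 : ∀ l' ∈ Finset.univ.erase l, aff x ⟨i.1, l'⟩ ^ (l.succ ::ₘ t).count l'.succ =
              aff x ⟨i.1, l'⟩ ^ t.count l'.succ := by
            intro l' hl'
            rw [Multiset.count_cons_of_ne]
            intro h
            exact (Finset.ne_of_mem_erase hl') (Fin.succ_injective _ h)
          rw [Finset.prod_congr rfl h2]
          have h3 : x i l.succ / L i = (x i 0 / L i) * aff x ⟨i.1, l⟩ := by
            unfold aff
            rw [div_mul_div_comm, mul_comm (x i 0), mul_div_mul_right _ _ (hx0 i)]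
          rw [h3]
          ring
    rw [h1, Sym.card_coe]
    congr 1
    refine Finset.prod_congr rfl fun l _ => ?_
    simp only [mex, Finsupp.coe_equivFunOnFinite_symm, i.2, dite_true]
  · intro i _ hi
    refine Finset.prod_eq_one fun l _ => ?_
    simp only [mex, Finsupp.coe_equivFunOnFinite_symm, hi, dite_false, pow_zero]

end

end Pool.Agent.H172.EI
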