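import Pool.Agent.H172.EI.Pm

/-!
Explicit lower bounds for the plurigenera of quotients of products of hypersurfaces.
-/

set_option autoImplicit false
set_option linter.overlappingInstances false
set_option linter.unusedSectionVars false
set_option maxHeartbeats 1000000

open FF MvPolynomial Pool.Agent.W603.LV Pool.Agent.W602.GT Pool.Agent.W602.Cov
open Pool.Agent.TH756.PR Pool.Agent.TH122.AB Pool.Agent.TH756.PN Pool.Agent.Y169.CH

namespace Pool.Agent.H172.EI

variable {r N R : ℕ} {n : Fin r → ℕ} {K : Type} [Field K] [Algebra ℂ K]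

theorem mex_zero (I : Finset (Fin r)) : mex I (n := n)
    (fun i : {i // i ∈ I} => (Sym.replicate 1 (0 : Fin (n i + 1)))) = 0 := by
  ext b
  simp only [mex, Finsupp.coe_equivFunOnFinite_symm, Finsupp.coe_zero, Pi.zero_apply]
  split_ifs with h
  · rw [Sym.coe_replicate, Multiset.count_replicate, if_neg (Fin.succ_ne_zero _).symm]
  · rfl

open Classical in
theorem mex_one (I : Finset (Fin r)) (b : (i : Fin r) × Fin (n i)) (hb : b.1 ∈ I) : mex I (n := n)
    (fun i : {i // i ∈ I} => (Sym.replicate 1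
      (if h : b.1 = i.1 then Fin.cast (by rw [h]) b.2.succ else (0 : Fin (n i + 1))))) =
      Finsupp.single b 1 := by
  ext c
  simp only [mex, Finsupp.coe_equivFunOnFinite_symm]
  by_cases hc : c.1 ∈ I
  · rw [dif_pos hc, Sym.coe_replicate, Multiset.count_replicate]
    obtain ⟨c1, c2⟩ := c
    obtain ⟨b1, b2⟩ := b
    dsimp only at hc hb ⊢
    by_cases h1 : b1 = c1
    · subst h1
      rw [dif_pos rfl, Finsupp.single_apply]
      by_cases h2 : b2 = c2
      · subst h2
        simp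
      · rw [if_neg, if_neg]
        · intro h
          apply h2
          simpa using h
        · intro h
          apply h2
          exact Fin.succ_injective _ (by simpa using h)
    · rw [dif_neg h1, if_neg (Fin.succ_ne_zero _).symm, Finsupp.single_apply, if_neg]
      intro h
      exact h1 (congrArg Sigma.fst h)
  · rw [dif_neg hc, Finsupp.single_apply, if_neg]
    rintro rfl
    exact hc hb

/-- explicit plurigenera -/
theorem pm (hr : 1 ≤ r) (hn : ∀ i, 1 ≤ n i) (hN : N = ∑ i, n i)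
    {F : ∀ i, MvPolynomial (Fin (n i + 1)) ℂ} {d : Fin r → ℕ} (hd : ∀ i, 1 ≤ d i)
    (hh : ∀ i, (F i).IsHomogeneous (d i)) (hs : ∀ i, SmF (F i))
    {x : ∀ i, Fin (n i + 1) → K} (hx0 : ∀ i, x i 0 ≠ 0)
    (hbas : IsTranscendenceBasis ℂ (aff x)) {m : Fin R → ℕ} (hm : ∀ j, 0 < m j)
    {a : Fin R → Fin r → ℕ} (hdiv : ∀ j i, m j ∣ a j i * d i) {z : Fin R → K}
    (hz : ∀ j, z j ^ m j = ∏ i, (aeval (x i) (F i) / x i 0 ^ d i) ^ a j i)
    (hgen : IntermediateField.adjoin ℂ (Set.range (aff x) ∪ Set.range z) = ⊤)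
    (hpos : ∀ v, Adm m a v → 1 ≤ ∑ i, (((d i : ℚ) - n i - 1) / d i) * v i)
    (I : Finset (Fin r)) (hI : ∀ i ∈ I, ∀ v, Adm m a v →
      ∑ s, (((d s : ℚ) - n s - 1) / d s) * v s = 1 → v i = 0) {D : ℕ} (hD0 : 1 ≤ D)
    (hD : ∀ i, d i ∣ D * (n i + 1)) :
    (∀ j k : ℕ, k * (D + 1) ≤ j →
      ∃ ω : (∀ i : {i // i ∈ I}, Sym (Fin (n i + 1)) k) → (Fin N → Derivation ℂ K K) → K,
        LinearIndependent ℂ ω ∧ ∀ s, ASec N {1} (j * D) 1 (ω s)) ∧
    ∀ (j h : ℕ) (f : Fin h → (i : Fin r) × Fin (n i)), Function.Injective f →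
      (∀ b, (f b).1 ∈ I) → D + 1 ≤ j →
      ∃ ω : Fin (h + 1) → (Fin N → Derivation ℂ K K) → K, (∀ b, ASec N {1} (j * D) 1 (ω b)) ∧
        ∃ D, ω 0 D ≠ 0 ∧ AlgebraicIndependent ℂ (fun b : Fin h => ω b.succ D / ω 0 D) := by
  classical
  obtain ⟨N', rfl⟩ : ∃ N', N = N' + 1 := by
    have h1 : n ⟨0, hr⟩ ≤ ∑ i, n i :=
      Finset.single_le_sum (f := n) (fun _ _ => Nat.zero_le _) (Finset.mem_univ _)
    have h2 := hn ⟨0, hr⟩
    exact ⟨N - 1, by omega⟩
  let e : ((i : Fin r) × Fin (n i)) ≃ Fin (N' + 1) :=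
    finSigmaFinEquiv.trans (finCongr hN.symm)
  have hbas' : IsTranscendenceBasis ℂ (uu e x) := basis_uu e hbas
  have hrange : Set.range (uu e x) = Set.range (aff x) := by
    ext z
    constructor
    · rintro ⟨b, rfl⟩
      exact ⟨e.symm b, rfl⟩
    · rintro ⟨a, rfl⟩
      refine ⟨e a, ?_⟩
      change aff x (e.symm (e a)) = _
      rw [e.symm_apply_apply]
  obtain ⟨Φ, hΦ, hΦn, hΦD, C, hCM, hCa⟩ := exists_cvr e hn hx0 hbas' hd hs hh hm hz hdiv
    (by rw [hrange]; exact hgen)
  have hx : ∀ i j, x i j ≠ 0 := by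
    intro i j
    refine Fin.cases (hx0 i) (fun l => ?_) j
    intro h0
    have h1 : aff x ⟨i, l⟩ = 0 := by
      change x i l.succ / x i 0 = 0
      rw [h0, zero_div]
    exact hbas.1.ne_zero _ h1
  have hFx : ∀ i, aeval (x i) (F i) ≠ 0 := by
    intro i h0
    have h1 : aeval (uu e x) (dh e i (F i)) = 0 := by
      rw [aeval_dh e hx0 (hh i), h0, zero_div]
    have h2 := (injective_iff_map_eq_zero _).1 hbas'.1 _ h1
    obtain ⟨q, c, hq, hc, -⟩ := exists_sh (hh i) (smF_ne (hs i))
    -- the dehomogenisation is injective on forms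
    apply smF_ne (hs i)
    by_contra hF
    obtain ⟨b, hb⟩ := MvPolynomial.ne_zero_iff.1 hF
    have h3 : coeff (ex e i b) (dh e i (F i)) = coeff b (F i) := by
      rw [coeff_dh, Finset.sum_eq_single b]
      · rw [if_pos rfl]
      · intro b' hb' hne
        rw [if_neg]
        intro hex
        apply hne
        have h4 : ∀ l : Fin (n i), b' l.succ = b l.succ := by
          intro l
          rw [← ex_at e b' l, ← ex_at e b l, hex]
        have h5 := sum_hom (hh i) hb'
        have h6 := sum_hom (hh i) (mem_support_iff.2 hb)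
        rw [Fin.sum_univ_succ] at h5 h6
        rw [Finset.sum_congr rfl fun l _ => h4 l] at h5
        ext j
        refine Fin.cases ?_ (fun l => h4 l) j
        omega
      · intro h
        rw [notMem_support_iff] at h
        rw [if_pos rfl, h]
    rw [h2, coeff_zero] at h3
    exact hb h3.symm
  have hz0 : ∀ j, z j ≠ 0 := by
    intro j h0
    have h1 := hz j
    rw [h0, zero_pow (hm j).ne'] at h1
    exact (Finset.prod_ne_zero_iff.2 fun i _ => pow_ne_zero _
      (div_ne_zero (hFx i) (pow_ne_zero _ (hx0 i)))) h1.symm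
  choose q hq using hD
  have key : ∀ j k : ℕ, k * (D + 1) ≤ j → ∃ c : K, c ≠ 0 ∧
      ∀ s : ∀ i : {i // i ∈ I}, Sym (Fin (n i + 1)) k,
      ASec (N' + 1) {1} (j * D) 1 (fun Dv : Fin (N' + 1) → Derivation ℂ K K => om e Dv x ^ (j * D) * c *
        cf x (fun i => aeval (x i) (F i) / x i 0 ^ (d i - 1)) I s) := by
    intro j k hjk
    obtain ⟨c, hc, hω⟩ := pm_pos e hn hx hbas' hd hs hh hFx hm hz0 hz hdiv (T := j * D)
      (E := fun i => j * q i) (fun i => by
        calc j * q i * d i = j * (d i * q i) := by ring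
          _ = j * (D * (n i + 1)) := by rw [hq i]
          _ = _ := by ring) I (arith_eff hm a n d hd hpos I hI hD0 hq hjk)
    refine ⟨c, hc, fun s => ⟨(hω s).1, fun P hP Dv hDv => ?_⟩⟩
    refine ((hω s).2 P Dv hDv).imp id fun h => ⟨1, by simp, one_ne_zero, ?_⟩
    rw [P.ord_one, mul_zero]
    exact h
  obtain ⟨D0, hD0'⟩ := exists_om_ne e hx0 hbas'
  have hL : ∀ i, aeval (x i) (F i) / x i 0 ^ (d i - 1) ≠ 0 := fun i =>
    div_ne_zero (hFx i) (pow_ne_zero _ (hx0 i))
  refine ⟨fun j k hjk => ?_, fun j h f hf hfI hj => ?_⟩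
  · obtain ⟨c, hc, hω⟩ := key j k hjk
    refine ⟨_, ?_, hω⟩
    -- evaluation at `D0`
    have h1 : LinearIndependent ℂ (fun s : ∀ i : {i // i ∈ I}, Sym (Fin (n i + 1)) k =>
        aeval (aff x) (monomial (mex I s) (1 : ℂ))) := by
      have h2 : LinearIndependent ℂ (fun s : ∀ i : {i // i ∈ I}, Sym (Fin (n i + 1)) k =>
          (monomial (mex I s) (1 : ℂ) : MvPolynomial ((i : Fin r) × Fin (n i)) ℂ)) := by
        have h3 := (basisMonomials ((i : Fin r) × Fin (n i)) ℂ).linearIndependent.comp _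
          (mex_inj (n := n) I (k := k))
        have h4 : (fun s : ∀ i : {i // i ∈ I}, Sym (Fin (n i + 1)) k =>
          (monomial (mex I s) (1 : ℂ) : MvPolynomial ((i : Fin r) × Fin (n i)) ℂ)) =
          (basisMonomials ((i : Fin r) × Fin (n i)) ℂ) ∘ mex I (n := n) (k := k) := by
          funext s
          rw [Function.comp_apply, coe_basisMonomials]
        rw [h4]
        exact h3
      exact h2.map' (aeval (aff x)).toLinearMap (LinearMap.ker_eq_bot.2 hbas.1)
    obtain ⟨C, hC⟩ : ∃ C : K, C = om e D0 x ^ (j * D) * c *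
      ∏ i : {i // i ∈ I}, (x i 0 / (aeval (x i) (F i) / x i 0 ^ (d i - 1))) ^ k := ⟨_, rfl⟩
    have hC0 : C ≠ 0 := by
      rw [hC]
      exact mul_ne_zero (mul_ne_zero (pow_ne_zero _ hD0') hc)
        (Finset.prod_ne_zero_iff.2 fun i _ => pow_ne_zero _ (div_ne_zero (hx0 _) (hL _)))
    have h5 : LinearIndependent ℂ (fun s : ∀ i : {i // i ∈ I}, Sym (Fin (n i + 1)) k =>
        C * aeval (aff x) (monomial (mex I s) (1 : ℂ))) :=
      h1.map' (LinearMap.mulLeft ℂ C) (LinearMap.ker_eq_bot.2 (mul_right_injective₀ hC0))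
    refine LinearIndependent.of_comp (LinearMap.proj (R := ℂ)
      (φ := fun _ : Fin (N' + 1) → Derivation ℂ K K => K) D0) ?_
    have e1 : ((LinearMap.proj (R := ℂ) (φ := fun _ : Fin (N' + 1) → Derivation ℂ K K => K) D0) ∘
        fun (s : ∀ i : {i // i ∈ I}, Sym (Fin (n i + 1)) k) (Dv : Fin (N' + 1) → Derivation ℂ K K) =>
          om e Dv x ^ (j * D) * c *
            cf x (fun i => aeval (x i) (F i) / x i 0 ^ (d i - 1)) I s) =
        fun s => C * aeval (aff x) (monomial (mex I s) (1 : ℂ)) := by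
      funext s
      change om e D0 x ^ (j * D) * c * cf x _ I s = _
      rw [cf_eq hx0, hC]
      ring
    rw [e1]
    exact h5
  · obtain ⟨c, hc, hω⟩ := key j 1 (by omega)
    have e0 : (monomial (0 : ((i : Fin r) × Fin (n i)) →₀ ℕ) (1 : ℂ)) = 1 := by
      rw [← C_apply, C_1]
    refine ⟨Fin.cases (fun Dv => om e Dv x ^ (j * D) * c *
        cf x (fun i => aeval (x i) (F i) / x i 0 ^ (d i - 1)) I
          (fun i : {i // i ∈ I} => (Sym.replicate 1 (0 : Fin (n i + 1)))))
      (fun b Dv => om e Dv x ^ (j * D) * c *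
        cf x (fun i => aeval (x i) (F i) / x i 0 ^ (d i - 1)) I
          (fun i : {i // i ∈ I} => (Sym.replicate 1 (if h : (f b).1 = i.1 then
            Fin.cast (by rw [h]) (f b).2.succ else (0 : Fin (n i + 1)))))), ?_, D0, ?_, ?_⟩
    · refine Fin.cases (hω _) fun b => hω _
    · change om e D0 x ^ (j * D) * c * cf x _ I _ ≠ 0
      rw [cf_eq hx0, mex_zero]
      refine mul_ne_zero (mul_ne_zero (pow_ne_zero _ hD0') hc) (mul_ne_zero
        (Finset.prod_ne_zero_iff.2 fun i _ => pow_ne_zero _ (div_ne_zero (hx0 _) (hL _))) ?_)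
      rw [e0, map_one]
      exact one_ne_zero
    · have h1 : (fun b : Fin h => (om e D0 x ^ (j * D) * c *
          cf x (fun i => aeval (x i) (F i) / x i 0 ^ (d i - 1)) I
          (fun i : {i // i ∈ I} => (Sym.replicate 1 (if h : (f b).1 = i.1 then
            Fin.cast (by rw [h]) (f b).2.succ else (0 : Fin (n i + 1)))))) /
          (om e D0 x ^ (j * D) * c * cf x (fun i => aeval (x i) (F i) / x i 0 ^ (d i - 1)) I
          (fun i : {i // i ∈ I} => (Sym.replicate 1 (0 : Fin (n i + 1)))))) = aff x ∘ f := by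
        funext b
        rw [mul_div_mul_left _ _ (mul_ne_zero (pow_ne_zero _ hD0') hc), cf_eq hx0, cf_eq hx0,
          mex_zero, mex_one I (f b) (hfI b), mul_div_mul_left _ _
          (Finset.prod_ne_zero_iff.2 fun i _ => pow_ne_zero _ (div_ne_zero (hx0 _) (hL _)))]
        rw [e0, map_one (aeval (aff x)), div_one, aeval_monomial, map_one, one_mul,
          Finsupp.prod_single_index (h := fun i k => aff x i ^ k) (pow_zero _), pow_one]
        rfl
      change AlgebraicIndependent ℂ (fun b : Fin h => (om e D0 x ^ (j * D) * c *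
          cf x (fun i => aeval (x i) (F i) / x i 0 ^ (d i - 1)) I
          (fun i : {i // i ∈ I} => (Sym.replicate 1 (if h : (f b).1 = i.1 then
            Fin.cast (by rw [h]) (f b).2.succ else (0 : Fin (n i + 1)))))) /
          (om e D0 x ^ (j * D) * c * cf x (fun i => aeval (x i) (F i) / x i 0 ^ (d i - 1)) I
          (fun i : {i // i ∈ I} => (Sym.replicate 1 (0 : Fin (n i + 1))))))
      rw [h1]
      exact hbas.1.comp f hf

end Pool.Agent.H172.EI
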